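import Mathlib
import Pool.Agent.W_2411wi_h30.WeakDef
import Pool.Agent.W_2411ls_h59.Defs
import Pool.Agent.W_2411c4_h26.Slab

/-! The gadget graph of a closed graph partitioned into atoms: a centre for each atom, a port for each
boundary edge of each atom, `M + 1` parallel edges between the centre and each of its ports, and the
edges between different atoms, which join their two ports. -/

set_option autoImplicit false
set_option linter.unusedSectionVars false

open Set

namespace Pool.Agent.W2411wi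

open Pool.Agent.W2411c4 Pool.Agent.W2411ls

variable {Ω : Type} [Preorder Ω] [Inhabited Ω]

/-- connected by edges in `F` -/
def MAdj (G : MGraph) (F : Set G.E) (u v : G.V) : Prop := ∃ f ∈ F, G.ends f = s(u, v)

abbrev MConn (G : MGraph) (F : Set G.E) : G.V → G.V → Prop := Relation.ReflTransGen (MAdj G F)

theorem MAdj.symm {G : MGraph} {F : Set G.E} {u v : G.V} (h : MAdj G F u v) : MAdj G F v u := by
  obtain ⟨f, hf, h⟩ := h
  exact ⟨f, hf, h.trans Sym2.eq_swap⟩

theorem MConn.symm' {G : MGraph} {F : Set G.E} {u v : G.V} (h : MConn G F u v) : MConn G F v u := by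
  induction h with
  | refl => exact Relation.ReflTransGen.refl
  | tail _ hbc ih => exact Relation.ReflTransGen.trans (Relation.ReflTransGen.single hbc.symm) ih

theorem walk_conn {G : MGraph} : ∀ {u v : G.V} (p : Walk G u v), MConn G {f | f ∈ p.edges} u v
  | _, _, Walk.nil _ => Relation.ReflTransGen.refl
  | _, _, Walk.cons e h p => by
      refine Relation.ReflTransGen.head ⟨e, ?_, h⟩ ?_
      · show e ∈ (Walk.cons e h p).edges
        simp [Walk.edges]
      · refine Relation.ReflTransGen.mono ?_ _ _ (walk_conn p)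
        rintro x y ⟨f, hf, hxy⟩
        refine ⟨f, ?_, hxy⟩
        show f ∈ (Walk.cons e h p).edges
        have hf' : f ∈ p.edges := hf
        simp [Walk.edges, hf']

/-- a cut between two connected vertices is crossed -/
theorem mconn_cut {G : MGraph} {F : Set G.E} {u v : G.V} (h : MConn G F u v) {S : Set G.V}
    (hu : u ∈ S) (hv : v ∉ S) : ∃ f ∈ F, ∃ x y, G.ends f = s(x, y) ∧ x ∈ S ∧ y ∉ S := by
  induction h with
  | refl => exact absurd hu hv
  | @tail b c _ hbc ih =>
    by_cases hb : b ∈ S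
    · obtain ⟨f, hf, hx⟩ := hbc
      exact ⟨f, hf, b, c, hx, hb, hv⟩
    · exact ih hb

/-- the edge set of the image of an edge -/
def WeakImmersion.F {H G : MGraph} (I : WeakImmersion H G) (e : H.E) : Set G.E :=
  {f | f ∈ (I.path e).edges}

theorem WeakImmersion.conn {H G : MGraph} (I : WeakImmersion H G) {e : H.E} {x y : H.V}
    (h : H.ends e = s(x, y)) : MConn G (I.F e) (I.η x) (I.η y) := by
  have h1 := I.ends_eq e
  rw [h, Sym2.map_mk, Sym2.eq_iff] at h1
  have h2 : MConn G (I.F e) (I.src e) (I.dst e) := walk_conn (I.path e)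
  rcases h1 with ⟨h3, h4⟩ | ⟨h3, h4⟩
  · rw [← h3, ← h4]
    exact h2
  · rw [← h3, ← h4]
    exact h2.symm'

theorem WeakImmersion.dj {H G : MGraph} (I : WeakImmersion H G) {e f : H.E} {g : G.E}
    (he : g ∈ I.F e) (hf : g ∈ I.F f) : e = f := by
  by_contra h
  exact I.disj e f h g he hf

/-- a closed graph partitioned into atoms -/
structure AtG (W : Set (Pc (Lb Ω))) (M : ℕ) where
  P : (CG Ω)
  pt : ℕ → ℕ
  cls : Cls P
  atom : ∀ p ∈ P.X.image pt, Atom W M P.G (fib P.X pt p)

namespace AtG

variable {W : Set (Pc (Lb Ω))} {M : ℕ}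

/-- the atom number `p` -/
abbrev at' (D : AtG W M) (p : ℕ) : Finset ℕ := fib D.P.X D.pt p

/-- the numbers of the atoms -/
abbrev PN (D : AtG W M) : Type := {p : ℕ // p ∈ D.P.X.image D.pt}

/-- the ports -/
abbrev PO (D : AtG W M) : Type :=
  {q : ℕ × ℕ // q.1 ∈ D.P.X.image D.pt ∧ q.2 ∈ D.P.G.bd (D.at' q.1)}

/-- the edges between different atoms -/
abbrev OE (D : AtG W M) : Type :=
  {e : ℕ // e ∈ D.P.G.E ∧ D.pt (D.P.G.a e) ≠ D.pt (D.P.G.b e)}

theorem pn_a (D : AtG W M) {e : ℕ} (he : e ∈ D.P.G.E) : D.pt (D.P.G.a e) ∈ D.P.X.image D.pt :=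
  Finset.mem_image_of_mem _ (D.cls e he).1

theorem pn_b (D : AtG W M) {e : ℕ} (he : e ∈ D.P.G.E) : D.pt (D.P.G.b e) ∈ D.P.X.image D.pt :=
  Finset.mem_image_of_mem _ (D.cls e he).2

/-- boundary edges of an atom -/
theorem mem_bd' (D : AtG W M) {p e : ℕ} : e ∈ D.P.G.bd (D.at' p) ↔ e ∈ D.P.G.E ∧
    D.pt (D.P.G.a e) ≠ D.pt (D.P.G.b e) ∧ (p = D.pt (D.P.G.a e) ∨ p = D.pt (D.P.G.b e)) := by
  rw [D.P.G.mem_bd]
  constructor
  · rintro ⟨he, hc⟩
    have h1 := D.cls e he
    refine ⟨he, ?_⟩
    unfold Gr.Cross at hc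
    simp only [mem_fib] at hc
    rcases hc with ⟨h2, h3⟩ | ⟨h2, h3⟩
    · exact ⟨fun h => h3 ⟨h1.2, h ▸ h2.2⟩, Or.inl h2.2.symm⟩
    · exact ⟨fun h => h2 ⟨h1.1, h ▸ h3.2⟩, Or.inr h3.2.symm⟩
  · rintro ⟨he, hne, hp⟩
    have h1 := D.cls e he
    refine ⟨he, ?_⟩
    unfold Gr.Cross
    simp only [mem_fib]
    rcases hp with rfl | rfl
    · exact Or.inl ⟨⟨h1.1, rfl⟩, fun h => hne h.2.symm⟩
    · exact Or.inr ⟨fun h => hne h.2, ⟨h1.2, rfl⟩⟩

/-- the port of an outer edge at its first end -/
def pa (D : AtG W M) (e : D.OE) : D.PO :=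
  ⟨(D.pt (D.P.G.a e.1), e.1), D.pn_a e.2.1, D.mem_bd'.2 ⟨e.2.1, e.2.2, Or.inl rfl⟩⟩

/-- the port of an outer edge at its second end -/
def pb (D : AtG W M) (e : D.OE) : D.PO :=
  ⟨(D.pt (D.P.G.b e.1), e.1), D.pn_b e.2.1, D.mem_bd'.2 ⟨e.2.1, e.2.2, Or.inr rfl⟩⟩

/-- the outer edge of a port -/
def oe (D : AtG W M) (q : D.PO) : D.OE :=
  ⟨q.1.2, (D.mem_bd'.1 q.2.2).1, (D.mem_bd'.1 q.2.2).2.1⟩

/-- the atom of a port -/
def pn (D : AtG W M) (q : D.PO) : D.PN := ⟨q.1.1, q.2.1⟩

theorem pa_ne_pb (D : AtG W M) (e : D.OE) : D.pa e ≠ D.pb e := by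
  intro h
  exact e.2.2 (congrArg (fun q : D.PO => q.1.1) h)

theorem oe_pa (D : AtG W M) (e : D.OE) : D.oe (D.pa e) = e := rfl

theorem oe_pb (D : AtG W M) (e : D.OE) : D.oe (D.pb e) = e := rfl

theorem port_cases (D : AtG W M) (q : D.PO) : q = D.pa (D.oe q) ∨ q = D.pb (D.oe q) := by
  rcases (D.mem_bd'.1 q.2.2).2.2 with h | h
  · left
    exact Subtype.ext (Prod.ext h rfl)
  · right
    exact Subtype.ext (Prod.ext h rfl)

theorem finPO (D : AtG W M) : Finite D.PO := by
  have h : Set.Finite {q : ℕ × ℕ | q.1 ∈ D.P.X.image D.pt ∧ q.2 ∈ D.P.G.bd (D.at' q.1)} := by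
    refine Set.Finite.subset ((D.P.X.image D.pt) ×ˢ D.P.G.E).finite_toSet ?_
    rintro q ⟨h1, h2⟩
    exact Finset.mem_coe.2 (Finset.mem_product.2 ⟨h1, (D.P.G.mem_bd.1 h2).1⟩)
  exact h.to_subtype

theorem finOE (D : AtG W M) : Finite D.OE := by
  have h : Set.Finite {e : ℕ | e ∈ D.P.G.E ∧ D.pt (D.P.G.a e) ≠ D.pt (D.P.G.b e)} :=
    Set.Finite.subset D.P.G.E.finite_toSet fun e he => Finset.mem_coe.2 he.1
  exact h.to_subtype

/-- the gadget graph -/
def gad (D : AtG W M) : MGraph where
  V := D.PN ⊕ D.PO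
  E := (D.PO × Fin (M + 1)) ⊕ D.OE
  finV := by
    have := D.finPO
    infer_instance
  finE := by
    have := D.finPO
    have := D.finOE
    infer_instance
  ends := fun e => match e with
    | .inl q => s(.inl (D.pn q.1), .inr q.1)
    | .inr e => s(.inr (D.pa e), .inr (D.pb e))
  loopless := by
    intro e
    rcases e with q | e
    · simp
    · simp [D.pa_ne_pb e]

theorem ends_inl (D : AtG W M) (q : D.PO × Fin (M + 1)) :
    D.gad.ends (.inl q) = s(.inl (D.pn q.1), .inr q.1) := rfl

theorem ends_inr (D : AtG W M) (e : D.OE) :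
    D.gad.ends (.inr e) = s(.inr (D.pa e), .inr (D.pb e)) := rfl

/-- the degrees of the gadget graph -/
theorem gad_deg (D : AtG W M) : MaxDegreeLE ((M + 1) * (M + 2)) D.gad := by
  intro v
  rcases v with p | q
  · have h1 : {e | (Sum.inl p : D.gad.V) ∈ D.gad.ends e}.ncard ≤
        (↑((D.P.G.bd (D.at' p.1)) ×ˢ (Finset.univ : Finset (Fin (M + 1)))) : Set (ℕ × Fin (M + 1))).ncard := by
      refine Set.ncard_le_ncard_of_injOn (fun e => match e with
        | .inl q => (q.1.1.2, q.2)
        | .inr _ => (0, 0)) ?_ ?_ (Finset.finite_toSet _)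
      · intro e he
        rcases e with q | e
        · have he' : (Sum.inl p : D.PN ⊕ D.PO) ∈ s(Sum.inl (D.pn q.1), Sum.inr q.1) := he
          rw [Sym2.mem_iff] at he'
          rcases he' with h | h
          · have h2 := Sum.inl.inj h
            rw [Finset.mem_coe, Finset.mem_product]
            refine ⟨?_, Finset.mem_univ _⟩
            rw [h2]
            exact q.1.2.2
          · exact absurd h (by simp)
        · have he' : (Sum.inl p : D.PN ⊕ D.PO) ∈ s(Sum.inr (D.pa e), Sum.inr (D.pb e)) := he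
          rw [Sym2.mem_iff] at he'
          rcases he' with h | h <;> exact absurd h (by simp)
      · intro e he f hf hef
        rcases e with q | e
        · rcases f with r | f
          · have he' : (Sum.inl p : D.PN ⊕ D.PO) ∈ s(Sum.inl (D.pn q.1), Sum.inr q.1) := he
            have hf' : (Sum.inl p : D.PN ⊕ D.PO) ∈ s(Sum.inl (D.pn r.1), Sum.inr r.1) := hf
            rw [Sym2.mem_iff] at he' hf'
            have h2 : p = D.pn q.1 := by
              rcases he' with h | h
              · exact Sum.inl.inj h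
              · exact absurd h (by simp)
            have h3 : p = D.pn r.1 := by
              rcases hf' with h | h
              · exact Sum.inl.inj h
              · exact absurd h (by simp)
            have h4 : (q.1.1.2, q.2) = (r.1.1.2, r.2) := hef
            rw [Prod.mk.injEq] at h4
            have h5 : q.1 = r.1 := by
              refine Subtype.ext (Prod.ext ?_ h4.1)
              have := congrArg Subtype.val (h2.symm.trans h3)
              exact this
            have h6 : q = r := Prod.ext h5 h4.2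
            rw [h6]
          · have hf' : (Sum.inl p : D.PN ⊕ D.PO) ∈ s(Sum.inr (D.pa f), Sum.inr (D.pb f)) := hf
            rw [Sym2.mem_iff] at hf'
            rcases hf' with h | h <;> exact absurd h (by simp)
        · have he' : (Sum.inl p : D.PN ⊕ D.PO) ∈ s(Sum.inr (D.pa e), Sum.inr (D.pb e)) := he
          rw [Sym2.mem_iff] at he'
          rcases he' with h | h <;> exact absurd h (by simp)
    refine h1.trans ?_
    rw [Set.ncard_coe_finset, Finset.card_product, Finset.card_univ, Fintype.card_fin]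
    have h2 : (D.P.G.bd (D.at' p.1)).card < M := (D.atom p.1 p.2).ord
    nlinarith
  · have h1 : {e | (Sum.inr q : D.gad.V) ∈ D.gad.ends e}.ncard ≤
        (Set.univ : Set (Option (Fin (M + 1)))).ncard := by
      refine Set.ncard_le_ncard_of_injOn (fun e => match e with
        | .inl q => some q.2
        | .inr _ => none) (fun _ _ => Set.mem_univ _) ?_ Set.finite_univ
      intro e he f hf hef
      rcases e with x | e
      · rcases f with y | f
        · have he' : (Sum.inr q : D.PN ⊕ D.PO) ∈ s(Sum.inl (D.pn x.1), Sum.inr x.1) := he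
          have hf' : (Sum.inr q : D.PN ⊕ D.PO) ∈ s(Sum.inl (D.pn y.1), Sum.inr y.1) := hf
          rw [Sym2.mem_iff] at he' hf'
          have h2 : q = x.1 := by
            rcases he' with h | h
            · exact absurd h (by simp)
            · exact Sum.inr.inj h
          have h3 : q = y.1 := by
            rcases hf' with h | h
            · exact absurd h (by simp)
            · exact Sum.inr.inj h
          have h4 : some x.2 = some y.2 := hef
          have h6 : x = y := Prod.ext (h2.symm.trans h3) (Option.some.inj h4)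
          rw [h6]
        · exact absurd hef (by simp)
      · rcases f with y | f
        · exact absurd hef (by simp)
        · have he' : (Sum.inr q : D.PN ⊕ D.PO) ∈ s(Sum.inr (D.pa e), Sum.inr (D.pb e)) := he
          have hf' : (Sum.inr q : D.PN ⊕ D.PO) ∈ s(Sum.inr (D.pa f), Sum.inr (D.pb f)) := hf
          rw [Sym2.mem_iff] at he' hf'
          have h2 : D.oe q = e := by
            rcases he' with h | h
            · rw [Sum.inr.inj h, D.oe_pa]
            · rw [Sum.inr.inj h, D.oe_pb]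
          have h3 : D.oe q = f := by
            rcases hf' with h | h
            · rw [Sum.inr.inj h, D.oe_pa]
            · rw [Sum.inr.inj h, D.oe_pb]
          rw [← h2, ← h3]
    refine h1.trans ?_
    rw [Set.ncard_univ, Nat.card_eq_fintype_card, Fintype.card_option, Fintype.card_fin]
    nlinarith

/-- the chosen enumeration of the boundary of an atom -/
noncomputable def en (D : AtG W M) (p : D.PN) : En D.P.G (D.at' p.1) := (D.atom p.1 p.2).mem.choose

theorem en_mem (D : AtG W M) (p : D.PN) : (⟨D.P.G, D.at' p.1, D.en p⟩ : Pc (Lb Ω)) ∈ W :=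
  (D.atom p.1 p.2).mem.choose_spec

theorem en_n (D : AtG W M) (p : D.PN) : (D.en p).n = D.P.G.d (D.at' p.1) := (D.en p).n_eq

theorem en_lt (D : AtG W M) (p : D.PN) : (D.en p).n < M := by
  rw [D.en_n]
  exact (D.atom p.1 p.2).ord

theorem ex_idx (D : AtG W M) (q : D.PO) : ∃ i < (D.en (D.pn q)).n, (D.en (D.pn q)).o i = q.1.2 :=
  ((D.en (D.pn q)).mem q.1.2).2 q.2.2

/-- the number of a port -/
noncomputable def idx (D : AtG W M) (q : D.PO) : ℕ := (D.ex_idx q).choose

theorem idx_lt (D : AtG W M) (q : D.PO) : D.idx q < (D.en (D.pn q)).n := (D.ex_idx q).choose_spec.1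

theorem idx_eq (D : AtG W M) (q : D.PO) : (D.en (D.pn q)).o (D.idx q) = q.1.2 :=
  (D.ex_idx q).choose_spec.2

theorem port_ext (D : AtG W M) {q q' : D.PO} (h : D.pn q = D.pn q') (hi : D.idx q = D.idx q') :
    q = q' := by
  have h1 := D.idx_eq q
  have h2 := D.idx_eq q'
  rw [← h, ← hi, h1] at h2
  exact Subtype.ext (Prod.ext (congrArg Subtype.val h) h2)

/-- the port number `i` of an atom -/
noncomputable def port (D : AtG W M) (p : D.PN) (i : ℕ) (hi : i < (D.en p).n) : D.PO :=
  ⟨(p.1, (D.en p).o i), p.2, ((D.en p).mem _).1 ⟨i, hi, rfl⟩⟩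

theorem port_pn (D : AtG W M) (p : D.PN) (i : ℕ) (hi : i < (D.en p).n) :
    D.pn (D.port p i hi) = p := rfl

theorem port_idx (D : AtG W M) (p : D.PN) (i : ℕ) (hi : i < (D.en p).n) :
    D.idx (D.port p i hi) = i := by
  have h1 := D.idx_eq (D.port p i hi)
  have h2 := D.idx_lt (D.port p i hi)
  exact (D.en p).inj _ h2 _ hi h1

/-- the labels -/
abbrev Om (W : Set (Pc (Lb Ω))) (M : ℕ) : Type := {w : Pc (Lb Ω) // w ∈ W} ⊕ Fin M

/-- the order of the labels -/
def Le (W : Set (Pc (Lb Ω))) (M : ℕ) : Om W M → Om W M → Prop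
  | .inl w, .inl w' => Rp w.1 w'.1
  | .inr i, .inr j => i = j
  | _, _ => False

theorem Le.rfl' {W : Set (Pc (Lb Ω))} {M : ℕ} : ∀ x : Om W M, Le W M x x
  | .inl _ => Rp.refl _
  | .inr _ => rfl

instance {W : Set (Pc (Lb Ω))} {M : ℕ} : Std.Refl (Le W M) := ⟨Le.rfl'⟩

theorem le_wqo {W : Set (Pc (Lb Ω))} (hW : W.PartiallyWellOrderedOn Rp) (M : ℕ) : IsWqo (Le W M) := by
  refine ⟨Le.rfl', ?_, ?_⟩
  · rintro (x | x) (y | y) (z | z) h1 h2
    · exact Rp.trans h1 h2
    · exact h2.elim
    · exact h1.elim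
    · exact h1.elim
    · exact h1.elim
    · exact h1.elim
    · exact h2.elim
    · exact Eq.trans h1 h2
  · intro f
    have h1 : ((Sum.inl '' {w : {w : Pc (Lb Ω) // w ∈ W} | True}) ∪
        (Sum.inr '' (Set.univ : Set (Fin M))) : Set (Om W M)).PartiallyWellOrderedOn (Le W M) := by
      refine Set.PartiallyWellOrderedOn.union ?_ ?_
      · rw [partiallyWellOrderedOn_iff_exists_lt]
        intro g hg
        choose w _ hw using hg
        rw [partiallyWellOrderedOn_iff_exists_lt] at hW
        obtain ⟨m, n, hmn, hr⟩ := hW (fun i => (w i).1) (fun i => (w i).2)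
        refine ⟨m, n, hmn, ?_⟩
        rw [← hw m, ← hw n]
        exact hr
      · exact (Set.finite_univ.image _).partiallyWellOrderedOn
    rw [partiallyWellOrderedOn_iff_exists_lt] at h1
    refine h1 f fun n => ?_
    rcases h : f n with w | i
    · exact Or.inl ⟨w, trivial, rfl⟩
    · exact Or.inr ⟨i, trivial, rfl⟩

/-- the labels of the gadget graph -/
noncomputable def lb (D : AtG W M) : D.gad.V → Om W M
  | .inl p => .inl ⟨_, D.en_mem p⟩
  | .inr q => .inr ⟨D.idx q, (D.idx_lt q).trans (D.en_lt _)⟩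

end AtG

end Pool.Agent.W2411wi
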