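import Mathlib
import Pool.Agent.W_2411wl_h30.Gadget

/-! From the data of a weak immersion of gadget graphs to a strong immersion. -/

set_option autoImplicit false
set_option linter.unusedSectionVars false

open Set

namespace Pool.Agent.W2411wi

open Pool.Agent.W2411c4 Pool.Agent.W2411ls

variable {Ω : Type} [Preorder Ω] [Inhabited Ω]

/-- the fan from a solid vertex to all boundary edges -/
theorem solid_fan {Q : Type} {G : Gr Q} {Y : Finset ℕ} (h : Solid G Y) :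
    ∃ (x : ℕ) (F : ℕ → Set ℕ), x ∈ Y ∧ (∀ f ∈ G.bd Y, f ∈ F f) ∧
      (∀ f ∈ G.bd Y, ∀ g ∈ F f, g ∈ G.E ∧ (g = f ∨ G.Inner Y g)) ∧
      (∀ f ∈ G.bd Y, ∀ z, G.Inc f z → G.Conn (F f) z x) ∧
      ∀ f ∈ G.bd Y, ∀ f' ∈ G.bd Y, f ≠ f' → Disjoint (F f) (F f') := by
  obtain ⟨x, hx, hd⟩ := h
  have h0 : G.bd ∅ = ∅ := by
    ext e
    rw [G.mem_bd]
    simp [Gr.Cross]
  have h1 : G.d ∅ = 0 := by rw [Gr.d, h0, Finset.card_empty]
  obtain ⟨s⟩ := Pool.Agent.W2411si.slab_le (G := G) (L := ∅) (L' := Y) (h := x)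
    (Finset.empty_subset _) (by simpa using hx) (by intro U _ _ _; rw [h1]; exact Nat.zero_le _)
    (by intro U _ hU hxU; exact hd U hU hxU) (by rw [h1]; exact Nat.zero_le _)
  have hthr : ∀ e f, ¬ s.thr e f := by
    intro e f hef
    have := (s.thr_mem e f hef).1
    rw [h0] at this
    exact absurd this (Finset.notMem_empty _)
  refine ⟨x, s.P', hx, s.self', ?_, fun f hf z hz => s.conn' f hf (fun e => hthr e f) z hz, s.disj'⟩
  intro f hf g hg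
  obtain ⟨h2, h3 | h3 | h3⟩ := s.sub' f hf g hg
  · exact ⟨h2, Or.inl h3⟩
  · refine ⟨h2, Or.inr ?_⟩
    rw [Finset.sdiff_empty] at h3
    exact h3
  · exact absurd h3 (hthr _ _)

variable {W : Set (Pc (Lb Ω))} {M : ℕ}

namespace AtG

/-- the centre of the fan of an atom -/
noncomputable def fx (D : AtG W M) (p : D.PN) : ℕ := (solid_fan (D.atom p.1 p.2).solid).choose

/-- the fan of an atom -/
noncomputable def ff (D : AtG W M) (p : D.PN) : ℕ → Set ℕ :=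
  (solid_fan (D.atom p.1 p.2).solid).choose_spec.choose

theorem ff_sub (D : AtG W M) {p : D.PN} {f g : ℕ} (hf : f ∈ D.P.G.bd (D.at' p.1))
    (hg : g ∈ D.ff p f) : g ∈ D.P.G.E ∧ (g = f ∨ D.P.G.Inner (D.at' p.1) g) :=
  (solid_fan (D.atom p.1 p.2).solid).choose_spec.choose_spec.2.2.1 f hf g hg

theorem ff_conn (D : AtG W M) {p : D.PN} {f : ℕ} (hf : f ∈ D.P.G.bd (D.at' p.1)) {z : ℕ}
    (hz : D.P.G.Inc f z) : D.P.G.Conn (D.ff p f) z (D.fx p) :=
  (solid_fan (D.atom p.1 p.2).solid).choose_spec.choose_spec.2.2.2.1 f hf z hz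

theorem ff_disj (D : AtG W M) {p : D.PN} {f f' : ℕ} (hf : f ∈ D.P.G.bd (D.at' p.1))
    (hf' : f' ∈ D.P.G.bd (D.at' p.1)) (h : f ≠ f') : Disjoint (D.ff p f) (D.ff p f') :=
  (solid_fan (D.atom p.1 p.2).solid).choose_spec.choose_spec.2.2.2.2 f hf f' hf' h

/-- inner edges of an atom -/
theorem inner_iff (D : AtG W M) {p e : ℕ} (he : e ∈ D.P.G.E) : D.P.G.Inner (D.at' p) e ↔
    D.pt (D.P.G.a e) = p ∧ D.pt (D.P.G.b e) = p := by
  unfold Gr.Inner
  simp only [mem_fib]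
  have := D.cls e he
  tauto

end AtG

/-- the data of a weak immersion of gadget graphs -/
structure Dec (D D' : AtG W M) where
  τ : D.PN → D'.PN
  τi : Function.Injective τ
  σ : D.PO → D'.PO
  σi : Function.Injective σ
  σp : ∀ q, D'.pn (σ q) = τ (D.pn q)
  σx : ∀ q, D'.idx (σ q) = D.idx q
  η : D.PN → ℕ → ℕ
  Φ : D.PN → ℕ → Set ℕ
  imm : ∀ p, Imm (⟨D.P.G, D.at' p.1, D.en p⟩ : Pc (Lb Ω)) ⟨D'.P.G, D'.at' (τ p).1, D'.en (τ p)⟩ (η p) (Φ p)
  H : D.OE → Set D'.gad.E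
  conn : ∀ e, MConn D'.gad (H e) (.inr (σ (D.pa e))) (.inr (σ (D.pb e)))
  dj : ∀ e f g, g ∈ H e → g ∈ H f → e = f
  npar : ∀ (e : D.OE) (q' : D'.PO) (l : Fin (M + 1)) (p : D.PN), D'.pn q' = τ p →
    (.inl (q', l) : D'.gad.E) ∉ H e
  out : ∀ q, (.inr (D'.oe (σ q)) : D'.gad.E) ∈ H (D.oe q)

namespace Dec

variable {D D' : AtG W M} (S : Dec D D')

theorem σo (q : D.PO) : (D'.en (S.τ (D.pn q))).o (D.idx q) = (S.σ q).1.2 := by
  rw [← S.σp, ← S.σx]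
  exact D'.idx_eq _

theorem σs {p : D.PN} {q' : D'.PO} (h : D'.pn q' = S.τ p) : ∃ q, D.pn q = p ∧ S.σ q = q' := by
  have h1 : (D.en p).n = (D'.en (S.τ p)).n := (S.imm p).n_eq
  have h2 := D'.idx_lt q'
  rw [h, ← h1] at h2
  refine ⟨D.port p (D'.idx q') h2, rfl, D'.port_ext ?_ ?_⟩
  · rw [S.σp, D.port_pn, h]
  · rw [S.σx, D.port_idx]

theorem i1 {p : D.PN} {e g : ℕ} (he : e ∈ D.P.G.E) (hi : D.P.G.Inner (D.at' p.1) e)
    (hg : g ∈ S.Φ p e) : g ∈ D'.P.G.E ∧ D'.P.G.Inner (D'.at' (S.τ p).1) g :=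
  (S.imm p).sub_in e he hi g hg

theorem i2 {q : D.PO} {g : ℕ} (hg : g ∈ S.Φ (D.pn q) q.1.2) :
    g = (S.σ q).1.2 ∨ (g ∈ D'.P.G.E ∧ D'.P.G.Inner (D'.at' (S.τ (D.pn q)).1) g) := by
  have h1 := (S.imm (D.pn q)).sub_bd (D.idx q) (D.idx_lt q) g
  have h2 : (⟨D.P.G, D.at' (D.pn q).1, D.en (D.pn q)⟩ : Pc (Lb Ω)).o (D.idx q) = q.1.2 := D.idx_eq q
  have h3 : (⟨D'.P.G, D'.at' (S.τ (D.pn q)).1, D'.en (S.τ (D.pn q))⟩ : Pc (Lb Ω)).o (D.idx q) =
    (S.σ q).1.2 := S.σo q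
  rw [h2, h3] at h1
  exact h1 hg

theorem i3 (q : D.PO) : (S.σ q).1.2 ∈ S.Φ (D.pn q) q.1.2 := by
  have h1 := (S.imm (D.pn q)).mem_bd (D.idx q) (D.idx_lt q)
  have h2 : (⟨D.P.G, D.at' (D.pn q).1, D.en (D.pn q)⟩ : Pc (Lb Ω)).o (D.idx q) = q.1.2 := D.idx_eq q
  have h3 : (⟨D'.P.G, D'.at' (S.τ (D.pn q)).1, D'.en (S.τ (D.pn q))⟩ : Pc (Lb Ω)).o (D.idx q) =
    (S.σ q).1.2 := S.σo q
  rw [h2, h3] at h1
  exact h1

theorem i5 (q : D.PO) {x z : ℕ} (hx : x ∈ D.at' q.1.1) (hi : D.P.G.Inc q.1.2 x)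
    (hz : D'.P.G.Inc (S.σ q).1.2 z) : D'.P.G.Conn (S.Φ (D.pn q) q.1.2) z (S.η (D.pn q) x) := by
  have h1 := (S.imm (D.pn q)).conn_bd (D.idx q) (D.idx_lt q)
  have h2 : (⟨D.P.G, D.at' (D.pn q).1, D.en (D.pn q)⟩ : Pc (Lb Ω)).o (D.idx q) = q.1.2 := D.idx_eq q
  have h3 : (⟨D'.P.G, D'.at' (S.τ (D.pn q)).1, D'.en (S.τ (D.pn q))⟩ : Pc (Lb Ω)).o (D.idx q) =
    (S.σ q).1.2 := S.σo q
  rw [h2, h3] at h1
  exact h1 x hi hx z hz

open Classical in
/-- the vertex map -/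
noncomputable def gη (x : ℕ) : ℕ :=
  if h : D.pt x ∈ D.P.X.image D.pt then S.η ⟨D.pt x, h⟩ x else 0

/-- the edge map -/
def gΦ (e : ℕ) : Set ℕ :=
  {g | (∃ p : D.PN, (p.1 = D.pt (D.P.G.a e) ∨ p.1 = D.pt (D.P.G.b e)) ∧ g ∈ S.Φ p e) ∨
    ∃ (he : e ∈ D.P.G.E ∧ D.pt (D.P.G.a e) ≠ D.pt (D.P.G.b e)) (e' : D'.OE),
      (.inr e' : D'.gad.E) ∈ S.H ⟨e, he⟩ ∧ ∃ p' : D'.PN, (∀ p, S.τ p ≠ p') ∧
        e'.1 ∈ D'.P.G.bd (D'.at' p'.1) ∧ g ∈ D'.ff p' e'.1}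

theorem gη_eq {x : ℕ} (hx : x ∈ D.P.X) :
    S.gη x = S.η ⟨D.pt x, Finset.mem_image_of_mem _ hx⟩ x := by
  unfold gη
  rw [dif_pos (Finset.mem_image_of_mem _ hx)]

theorem gη_mem {x : ℕ} (hx : x ∈ D.P.X) :
    S.gη x ∈ D'.at' (S.τ ⟨D.pt x, Finset.mem_image_of_mem _ hx⟩).1 := by
  rw [S.gη_eq hx]
  exact (S.imm _).maps x (mem_fib.2 ⟨hx, rfl⟩)

/-- an edge which touches an atom is an inner edge or belongs to a port -/
theorem kinds {p : D.PN} {e : ℕ} (he : e ∈ D.P.G.E)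
    (hp : p.1 = D.pt (D.P.G.a e) ∨ p.1 = D.pt (D.P.G.b e)) :
    D.P.G.Inner (D.at' p.1) e ∨ ∃ q : D.PO, D.pn q = p ∧ q.1.2 = e := by
  by_cases h : D.pt (D.P.G.a e) = D.pt (D.P.G.b e)
  · left
    rw [D.inner_iff he]
    rcases hp with h1 | h1
    · exact ⟨h1.symm, h.symm.trans h1.symm⟩
    · exact ⟨h.trans h1.symm, h1.symm⟩
  · right
    exact ⟨⟨(p.1, e), p.2, D.mem_bd'.2 ⟨he, h, hp⟩⟩, rfl, rfl⟩

theorem gΦ_E {e g : ℕ} (he : e ∈ D.P.G.E) (hg : g ∈ S.gΦ e) : g ∈ D'.P.G.E := by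
  rcases hg with ⟨p, hp, hg⟩ | ⟨_, e', _, p', _, he', hg⟩
  · rcases kinds he hp with h | ⟨q, rfl, rfl⟩
    · exact (S.i1 he h hg).1
    · rcases S.i2 hg with rfl | h
      · exact (D'.P.G.mem_bd.1 (S.σ q).2.2).1
      · exact h.1
  · exact (D'.ff_sub he' hg).1

/-- outer edges of the host in the image of an edge -/
theorem gΦ_outer {e g : ℕ} (he : e ∈ D.P.G.E) (hg : g ∈ S.gΦ e)
    (hne : D'.pt (D'.P.G.a g) ≠ D'.pt (D'.P.G.b g)) :
    ∃ (h : e ∈ D.P.G.E ∧ D.pt (D.P.G.a e) ≠ D.pt (D.P.G.b e))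
      (h' : g ∈ D'.P.G.E ∧ D'.pt (D'.P.G.a g) ≠ D'.pt (D'.P.G.b g)),
      (.inr ⟨g, h'⟩ : D'.gad.E) ∈ S.H ⟨e, h⟩ := by
  have hgE := S.gΦ_E he hg
  have hin : ∀ p, ¬ D'.P.G.Inner (D'.at' p) g := by
    intro p hp
    rw [D'.inner_iff hgE] at hp
    exact hne (hp.1.trans hp.2.symm)
  rcases hg with ⟨p, hp, hg⟩ | ⟨h, e', h1, p', _, he', hg⟩
  · rcases kinds he hp with h | ⟨q, rfl, rfl⟩
    · exact absurd (S.i1 he h hg).2 (hin _)
    · rcases S.i2 hg with rfl | h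
      · exact ⟨(D.oe q).2, (D'.oe (S.σ q)).2, S.out q⟩
      · exact absurd h.2 (hin _)
  · rcases (D'.ff_sub he' hg).2 with rfl | h2
    · exact ⟨h, e'.2, h1⟩
    · exact absurd h2 (hin _)

/-- inner edges of the host in the image of an edge -/
theorem gΦ_inner {e g : ℕ} {p' : D'.PN} (he : e ∈ D.P.G.E) (hg : g ∈ S.gΦ e)
    (hi : D'.P.G.Inner (D'.at' p'.1) g) :
    (∃ p, S.τ p = p' ∧ (p.1 = D.pt (D.P.G.a e) ∨ p.1 = D.pt (D.P.G.b e)) ∧ g ∈ S.Φ p e) ∨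
    ((∀ p, S.τ p ≠ p') ∧ ∃ (h : e ∈ D.P.G.E ∧ D.pt (D.P.G.a e) ≠ D.pt (D.P.G.b e)) (e' : D'.OE),
      (.inr e' : D'.gad.E) ∈ S.H ⟨e, h⟩ ∧ e'.1 ∈ D'.P.G.bd (D'.at' p'.1) ∧ g ∈ D'.ff p' e'.1) := by
  have hgE := S.gΦ_E he hg
  have hi' := (D'.inner_iff hgE).1 hi
  have key : ∀ p'' : D'.PN, D'.P.G.Inner (D'.at' p''.1) g → p'' = p' := by
    intro p'' h
    exact Subtype.ext (((D'.inner_iff hgE).1 h).1.symm.trans hi'.1)
  rcases hg with ⟨p, hp, hg⟩ | ⟨h, e', h1, p'', h2, he', hg⟩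
  · left
    refine ⟨p, ?_, hp, hg⟩
    rcases kinds he hp with h | ⟨q, rfl, rfl⟩
    · exact key _ (S.i1 he h hg).2
    · rcases S.i2 hg with rfl | h
      · exact absurd (hi'.1.trans hi'.2.symm) (D'.oe (S.σ q)).2.2
      · exact key _ h.2
  · right
    rcases (D'.ff_sub he' hg).2 with rfl | h3
    · exact absurd (hi'.1.trans hi'.2.symm) e'.2.2
    · have h4 := key _ h3
      subst h4
      exact ⟨h2, h, e', h1, he', hg⟩

/-- the host edges at an image atom -/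
theorem at_image {e : D.OE} {e' : D'.OE} (h : (.inr e' : D'.gad.E) ∈ S.H e) {q' : D'.PO}
    (hq' : D'.oe q' = e') {p : D.PN} (hp : D'.pn q' = S.τ p) :
    ∃ q, D.pn q = p ∧ S.σ q = q' ∧ D.oe q = e := by
  obtain ⟨q, h1, h2⟩ := S.σs hp
  refine ⟨q, h1, h2, ?_⟩
  have h3 := S.out q
  rw [h2, hq'] at h3
  exact S.dj _ _ _ h3 h

theorem gconn_outer (e : D.OE) : D'.P.G.Conn (S.gΦ e.1) (S.gη (D.P.G.a e.1)) (S.gη (D.P.G.b e.1)) := by
  classical
  let h : D'.PN ⊕ D'.PO → ℕ := fun v =>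
    if v = .inr (S.σ (D.pa e)) then S.gη (D.P.G.a e.1)
    else if v = .inr (S.σ (D.pb e)) then S.gη (D.P.G.b e.1)
    else match v with
      | .inl p' => D'.fx p'
      | .inr q' => D'.fx (D'.pn q')
  have hab : S.σ (D.pa e) ≠ S.σ (D.pb e) := fun h => D.pa_ne_pb e (S.σi h)
  have ha : h (.inr (S.σ (D.pa e))) = S.gη (D.P.G.a e.1) := by simp only [h, if_true]
  have hb : h (.inr (S.σ (D.pb e))) = S.gη (D.P.G.b e.1) := by
    have : (.inr (S.σ (D.pb e)) : D'.PN ⊕ D'.PO) ≠ .inr (S.σ (D.pa e)) := fun h => hab (Sum.inr.inj h).symm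
    simp only [h, if_neg this, if_true]
  have hnl : ∀ p', h (.inl p') = D'.fx p' := by
    intro p'
    have h1 : (.inl p' : D'.PN ⊕ D'.PO) ≠ .inr (S.σ (D.pa e)) := by
      intro h; cases h
    have h2 : (.inl p' : D'.PN ⊕ D'.PO) ≠ .inr (S.σ (D.pb e)) := by
      intro h; cases h
    simp only [h, if_neg h1, if_neg h2]
  have hnr : ∀ q', (∀ p, S.τ p ≠ D'.pn q') → h (.inr q') = D'.fx (D'.pn q') := by
    intro q' hq'
    have h1 : (.inr q' : D'.PN ⊕ D'.PO) ≠ .inr (S.σ (D.pa e)) := by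
      intro h
      apply hq' (D.pn (D.pa e))
      rw [Sum.inr.inj h, S.σp]
    have h2 : (.inr q' : D'.PN ⊕ D'.PO) ≠ .inr (S.σ (D.pb e)) := by
      intro h
      apply hq' (D.pn (D.pb e))
      rw [Sum.inr.inj h, S.σp]
    simp only [h, if_neg h1, if_neg h2]
  -- the ends of an outer edge
  have key : ∀ e' : D'.OE, (.inr e' : D'.gad.E) ∈ S.H e → ∀ q' : D'.PO, D'.oe q' = e' →
      ∀ z, D'.P.G.Inc e'.1 z → D'.P.G.Conn (S.gΦ e.1) z (h (.inr q')) := by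
    intro e' he' q' hq' z hz
    by_cases hp : ∃ p, S.τ p = D'.pn q'
    · obtain ⟨p, hp⟩ := hp
      obtain ⟨q, h1, h2, h3⟩ := S.at_image he' hq' hp.symm
      have hz' : D'.P.G.Inc (S.σ q).1.2 z := by
        rw [h2]
        have : q'.1.2 = e'.1 := congrArg Subtype.val hq'
        rw [this]
        exact hz
      have he : q.1.2 = e.1 := congrArg Subtype.val h3
      have hmono : S.Φ (D.pn q) q.1.2 ⊆ S.gΦ e.1 := by
        intro g hg
        left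
        refine ⟨D.pn q, ?_, he ▸ hg⟩
        rw [← he]
        exact (D.mem_bd'.1 q.2.2).2.2
      rcases D.port_cases q with h4 | h4
      · rw [h3] at h4
        have hx : D.P.G.a e.1 ∈ D.at' q.1.1 := by
          rw [h4]
          exact mem_fib.2 ⟨(D.cls _ e.2.1).1, rfl⟩
        have h5 := S.i5 q hx (he ▸ Or.inl rfl) hz'
        rw [← h2, h4, ha, S.gη_eq (D.cls _ e.2.1).1]
        have h6 : D.pn q = ⟨D.pt (D.P.G.a e.1), Finset.mem_image_of_mem _ (D.cls _ e.2.1).1⟩ := by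
          rw [h4]
          rfl
        rw [h6] at h5 hmono
        exact h5.mono hmono
      · rw [h3] at h4
        have hx : D.P.G.b e.1 ∈ D.at' q.1.1 := by
          rw [h4]
          exact mem_fib.2 ⟨(D.cls _ e.2.1).2, rfl⟩
        have h5 := S.i5 q hx (he ▸ Or.inr rfl) hz'
        rw [← h2, h4, hb, S.gη_eq (D.cls _ e.2.1).2]
        have h6 : D.pn q = ⟨D.pt (D.P.G.b e.1), Finset.mem_image_of_mem _ (D.cls _ e.2.1).2⟩ := by
          rw [h4]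
          rfl
        rw [h6] at h5 hmono
        exact h5.mono hmono
    · push Not at hp
      rw [hnr q' hp]
      have hb' : e'.1 ∈ D'.P.G.bd (D'.at' (D'.pn q').1) := by
        rw [← hq']
        exact q'.2.2
      refine (D'.ff_conn hb' hz).mono ?_
      intro g hg
      exact Or.inr ⟨e.2, e', he', D'.pn q', hp, hb', hg⟩
  have step : ∀ u v, MAdj D'.gad (S.H e) u v → D'.P.G.Conn (S.gΦ e.1) (h u) (h v) := by
    have step0 : ∀ f ∈ S.H e, ∀ u v, (u = v ∨ True) → D'.gad.ends f = s(u, v) →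
        D'.P.G.Conn (S.gΦ e.1) (h u) (h v) := by
      intro f hf u v _ hfe
      rcases f with ⟨q', l⟩ | e'
      · have hni : ∀ p, S.τ p ≠ D'.pn q' := fun p hp => S.npar e q' l p hp.symm hf
        have h1 := hfe
        rw [D'.ends_inl, Sym2.eq_iff] at h1
        rcases h1 with ⟨rfl, rfl⟩ | ⟨rfl, rfl⟩
        · rw [hnl, hnr q' hni]
          exact Gr.Conn.refl
        · rw [hnl, hnr q' hni]
          exact Gr.Conn.refl
      · have h1 := hfe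
        have h2 := key e' hf (D'.pa e') rfl _ (Or.inl rfl)
        have h3 := key e' hf (D'.pb e') rfl _ (Or.inl rfl)
        rw [D'.ends_inr, Sym2.eq_iff] at h1
        rcases h1 with ⟨rfl, rfl⟩ | ⟨rfl, rfl⟩
        · exact h2.symm.trans h3
        · exact h3.symm.trans h2
    rintro u v ⟨f, hf, hfe⟩
    exact step0 f hf u v (Or.inr trivial) hfe
  have hmain : ∀ u v, MConn D'.gad (S.H e) u v → D'.P.G.Conn (S.gΦ e.1) (h u) (h v) := by
    intro u v huv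
    induction huv with
    | refl => exact Gr.Conn.refl
    | tail _ hbc ih => exact ih.trans (step _ _ hbc)
  have h1 := hmain _ _ (S.conn e)
  rw [ha, hb] at h1
  exact h1

/-- **Decoding.** -/
theorem cr (S : Dec D D') : CR D.P D'.P := by
  refine ⟨S.gη, S.gΦ, ?_, ?_, ?_, ?_, ?_, ?_, ?_⟩
  · intro x hx
    exact (mem_fib.1 (S.gη_mem hx)).1
  · intro x hx y hy hxy
    have h1 := (mem_fib.1 (S.gη_mem hx)).2
    have h2 := (mem_fib.1 (S.gη_mem hy)).2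
    rw [hxy, h2] at h1
    have h3 := S.τi (Subtype.ext h1)
    have h4 : D.pt y = D.pt x := congrArg Subtype.val h3
    rw [S.gη_eq hx, S.gη_eq hy, h3] at hxy
    exact (S.imm _).inj x (mem_fib.2 ⟨hx, rfl⟩) y (mem_fib.2 ⟨hy, h4⟩) hxy
  · intro x hx
    rw [S.gη_eq hx]
    exact (S.imm _).lab x (mem_fib.2 ⟨hx, rfl⟩)
  · intro e he g hg
    exact S.gΦ_E he hg
  · intro e he
    by_cases hne : D.pt (D.P.G.a e) = D.pt (D.P.G.b e)
    · have hX := D.cls e he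
      have hi : D.P.G.Inner (D.at' (D.pt (D.P.G.a e))) e :=
        (D.inner_iff he).2 ⟨rfl, hne.symm⟩
      have h1 := (S.imm ⟨D.pt (D.P.G.a e), D.pn_a he⟩).conn_in e he hi
      rw [S.gη_eq hX.1, S.gη_eq hX.2]
      have h2 : (⟨D.pt (D.P.G.b e), Finset.mem_image_of_mem _ hX.2⟩ : D.PN) =
          ⟨D.pt (D.P.G.a e), D.pn_a he⟩ := Subtype.ext hne.symm
      rw [h2]
      exact h1.mono fun g hg => Or.inl ⟨⟨D.pt (D.P.G.a e), D.pn_a he⟩, Or.inl rfl, hg⟩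
    · exact S.gconn_outer ⟨e, he, hne⟩
  · intro e he f hf hef
    rw [Set.disjoint_left]
    intro g hge hgf
    by_cases hne : D'.pt (D'.P.G.a g) = D'.pt (D'.P.G.b g)
    · have hgE := S.gΦ_E he hge
      have hi : D'.P.G.Inner (D'.at' (D'.pt (D'.P.G.a g))) g := (D'.inner_iff hgE).2 ⟨rfl, hne.symm⟩
      rcases S.gΦ_inner (p' := ⟨_, D'.pn_a hgE⟩) he hge hi with ⟨p, h1, h2, h3⟩ | ⟨h1, h2, e', h3, h4, h5⟩
      · rcases S.gΦ_inner (p' := ⟨_, D'.pn_a hgE⟩) hf hgf hi with ⟨r, k1, k2, k3⟩ | ⟨k1, k2, f', k3, k4, k5⟩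
        · have h6 : r = p := S.τi (k1.trans h1.symm)
          subst h6
          have ht : ∀ e ∈ D.P.G.E, (r.1 = D.pt (D.P.G.a e) ∨ r.1 = D.pt (D.P.G.b e)) →
              D.P.G.Touch (D.at' r.1) e := by
            intro e he h
            have := D.cls e he
            rcases h with h | h
            · exact Or.inl (mem_fib.2 ⟨this.1, h.symm⟩)
            · exact Or.inr (mem_fib.2 ⟨this.2, h.symm⟩)
          exact Set.disjoint_left.1 ((S.imm r).disj e he f hf (ht e he h2) (ht f hf k2) hef) h3 k3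
        · exact k1 p h1
      · rcases S.gΦ_inner (p' := ⟨_, D'.pn_a hgE⟩) hf hgf hi with ⟨r, k1, k2, k3⟩ | ⟨k1, k2, f', k3, k4, k5⟩
        · exact h1 r k1
        · have h6 : e' ≠ f' := by
            intro h6
            subst h6
            exact hef (congrArg Subtype.val (S.dj _ _ _ h3 k3))
          exact Set.disjoint_left.1 (D'.ff_disj h4 k4 fun h => h6 (Subtype.ext h)) h5 k5
    · obtain ⟨h1, h2, h3⟩ := S.gΦ_outer he hge hne
      obtain ⟨k1, k2, k3⟩ := S.gΦ_outer hf hgf hne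
      exact hef (congrArg Subtype.val (S.dj _ _ _ h3 k3))
  · intro e he y hy hey g hg hgy
    have hgE := S.gΦ_E he hg
    have hyp := S.gη_mem hy
    have hy1 : y ∈ D.at' (D.pt y) := mem_fib.2 ⟨hy, rfl⟩
    have htau := (mem_fib.1 hyp).2
    -- the atom of the image
    by_cases hne : D'.pt (D'.P.G.a g) = D'.pt (D'.P.G.b g)
    · have hi : D'.P.G.Inner (D'.at' (S.τ ⟨D.pt y, Finset.mem_image_of_mem _ hy⟩).1) g := by
        rw [D'.inner_iff hgE]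
        rcases hgy with h | h
        · rw [← h, htau]
          rw [← h, htau] at hne
          exact ⟨rfl, hne.symm⟩
        · rw [← h, htau]
          rw [← h, htau] at hne
          exact ⟨hne, rfl⟩
      rcases S.gΦ_inner he hg hi with ⟨p, h1, h2, h3⟩ | ⟨h1, _⟩
      · have h4 := S.τi h1
        subst h4
        have ht : D.P.G.Touch (D.at' (D.pt y)) e := by
          have := D.cls e he
          rcases h2 with h | h
          · exact Or.inl (mem_fib.2 ⟨this.1, h.symm⟩)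
          · exact Or.inr (mem_fib.2 ⟨this.2, h.symm⟩)
        have h5 := (S.imm ⟨D.pt y, Finset.mem_image_of_mem _ hy⟩).strong e he ht y hy1 hey g h3
        rw [S.gη_eq hy] at hgy
        exact h5 hgy
      · exact h1 _ rfl
    · obtain ⟨h1, h2, h3⟩ := S.gΦ_outer he hg hne
      have hb : g ∈ D'.P.G.bd (D'.at' (S.τ ⟨D.pt y, Finset.mem_image_of_mem _ hy⟩).1) := by
        rw [D'.mem_bd']
        refine ⟨hgE, hne, ?_⟩
        rcases hgy with h | h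
        · left
          rw [← h, htau]
        · right
          rw [← h, htau]
      let q' : D'.PO := ⟨((S.τ ⟨D.pt y, Finset.mem_image_of_mem _ hy⟩).1, g),
        (S.τ ⟨D.pt y, Finset.mem_image_of_mem _ hy⟩).2, hb⟩
      obtain ⟨q, k1, k2, k3⟩ := S.at_image h3 (q' := q') rfl
        (p := ⟨D.pt y, Finset.mem_image_of_mem _ hy⟩) rfl
      have hq : q.1.2 = e := congrArg Subtype.val k3
      have hgq : g ∈ S.Φ (D.pn q) q.1.2 := by
        have h4 := S.i3 q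
        rw [k2] at h4
        exact h4
      rw [k1, hq] at hgq
      have ht : D.P.G.Touch (D.at' (D.pt y)) e := by
        have h4 := (D.P.G.mem_bd.1 q.2.2).2.touch
        have h5 : q.1.1 = D.pt y := congrArg Subtype.val k1
        rw [h5, hq] at h4
        exact h4
      have h5 := (S.imm ⟨D.pt y, Finset.mem_image_of_mem _ hy⟩).strong e he ht y hy1 hey g hgq
      rw [S.gη_eq hy] at hgy
      exact h5 hgy

end Dec

end Pool.Agent.W2411wi
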