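import Mathlib
import Pool.Agent.W_2411wl_h30.Decode

/-! A weak immersion of gadget graphs which respects the labels maps gadgets to gadgets; closed
graphs partitioned into atoms are well-quasi-ordered if the labelled weak theorem holds. -/

set_option autoImplicit false
set_option linter.unusedSectionVars false

open Set

namespace Pool.Agent.W2411wi

open Pool.Agent.W2411c4 Pool.Agent.W2411ls

variable {Ω : Type} [Preorder Ω] [Inhabited Ω]

variable {W : Set (Pc (Lb Ω))} {M : ℕ}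

theorem le_inl {W : Set (Pc (Lb Ω))} {M : ℕ} {D' : AtG W M} {w : {w : Pc (Lb Ω) // w ∈ W}} {v : D'.gad.V}
    (h : AtG.Le W M (.inl w) (D'.lb v)) :
    ∃ p' : D'.PN, v = .inl p' ∧ Rp w.1 ⟨D'.P.G, D'.at' p'.1, D'.en p'⟩ := by
  rcases v with p' | q'
  · exact ⟨p', rfl, h⟩
  · exact h.elim

theorem le_inr {W : Set (Pc (Lb Ω))} {M : ℕ} {D' : AtG W M} {i : Fin M} {v : D'.gad.V}
    (h : AtG.Le W M (.inr i) (D'.lb v)) :
    ∃ q' : D'.PO, v = .inr q' ∧ i.1 = D'.idx q' := by
  rcases v with p' | q'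
  · exact h.elim
  · exact ⟨q', rfl, congrArg Fin.val h⟩

theorem card_port (D : AtG W M) (p : D.PN) :
    Nat.card ({e // e ∈ D.P.G.bd (D.at' p.1)} × Fin (M + 1)) = (D.en p).n * (M + 1) := by
  rw [Nat.card_prod, Nat.card_eq_fintype_card, Nat.card_eq_fintype_card, Fintype.card_coe,
    Fintype.card_fin, D.en_n]
  rfl

/-- **Encoding.** -/
theorem exists_dec {D D' : AtG W M} (I : WeakImmersion D.gad D'.gad)
    (hl : ∀ v, AtG.Le W M (D.lb v) (D'.lb (I.η v))) : Nonempty (Dec D D') := by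
  classical
  have h1 : ∀ p : D.PN, ∃ p' : D'.PN, I.η (.inl p) = .inl p' ∧
      Rp (⟨D.P.G, D.at' p.1, D.en p⟩ : Pc (Lb Ω)) ⟨D'.P.G, D'.at' p'.1, D'.en p'⟩ :=
    fun p => le_inl (hl (.inl p))
  have h2 : ∀ q : D.PO, ∃ q' : D'.PO, I.η (.inr q) = .inr q' ∧ D.idx q = D'.idx q' :=
    fun q => le_inr (hl (.inr q))
  choose τ hτ hRp using h1
  choose σ hσ hidx using h2
  choose η Φ imm using hRp
  have τi : Function.Injective τ := by
    intro p r h
    have h3 : I.η (.inl p) = I.η (.inl r) := by rw [hτ, hτ, h]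
    exact Sum.inl.inj (I.inj h3)
  have σi : Function.Injective σ := by
    intro p r h
    have h3 : I.η (.inr p) = I.η (.inr r) := by rw [hσ, hσ, h]
    exact Sum.inr.inj (I.inj h3)
  have hpar : ∀ (q : D.PO) (l : Fin (M + 1)),
      MConn D'.gad (I.F (.inl (q, l))) (.inl (τ (D.pn q))) (.inr (σ q)) := by
    intro q l
    have h3 := I.conn (D.ends_inl (q, l))
    rw [hτ, hσ] at h3
    exact h3
  have hout : ∀ e : D.OE, MConn D'.gad (I.F (.inr e)) (.inr (σ (D.pa e))) (.inr (σ (D.pb e))) := by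
    intro e
    have h3 := I.conn (D.ends_inr e)
    rw [hσ, hσ] at h3
    exact h3
  -- ports go to ports of the image atom
  have σp : ∀ q, D'.pn (σ q) = τ (D.pn q) := by
    intro q
    by_contra hne
    let S : Set D'.gad.V := {v | v = .inl (τ (D.pn q)) ∨ ∃ q' : D'.PO, v = .inr q' ∧
      D'.pn q' = τ (D.pn q)}
    have hu : (.inl (τ (D.pn q)) : D'.gad.V) ∈ S := Or.inl rfl
    have hv : (.inr (σ q) : D'.gad.V) ∉ S := by
      rintro (h | ⟨q', h, h'⟩)
      · cases h
      · rw [← Sum.inr.inj h] at h'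
        exact hne h'
    have hS1 : ∀ q' : D'.PO, (.inl (D'.pn q') : D'.gad.V) ∈ S ↔ (.inr q' : D'.gad.V) ∈ S := by
      intro q'
      constructor
      · rintro (h | ⟨q'', h, _⟩)
        · exact Or.inr ⟨q', rfl, Sum.inl.inj h⟩
        · cases h
      · rintro (h | ⟨q'', h, h'⟩)
        · cases h
        · rw [← Sum.inr.inj h] at h'
          left
          rw [h']
    have hex : ∀ l : Fin (M + 1), ∃ e' : D'.OE, (.inr e' : D'.gad.E) ∈ I.F (.inl (q, l)) ∧
        e'.1 ∈ D'.P.G.bd (D'.at' (τ (D.pn q)).1) := by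
      intro l
      obtain ⟨f, hf, x, y, hxy, hx, hy⟩ := mconn_cut (hpar q l) hu hv
      rcases f with ⟨q', l'⟩ | e'
      · exfalso
        rw [D'.ends_inl, Sym2.eq_iff] at hxy
        rcases hxy with ⟨h, h'⟩ | ⟨h, h'⟩
        · rw [← h] at hx
          rw [← h'] at hy
          exact hy ((hS1 q').1 hx)
        · rw [← h] at hy
          rw [← h'] at hx
          exact hy ((hS1 q').2 hx)
      · refine ⟨e', hf, ?_⟩
        have h4 : ∀ q' : D'.PO, D'.oe q' = e' → (.inr q' : D'.gad.V) ∈ S →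
            e'.1 ∈ D'.P.G.bd (D'.at' (τ (D.pn q)).1) := by
          rintro q' hq' (h | ⟨q'', h, h'⟩)
          · cases h
          · rw [← Sum.inr.inj h] at h'
            rw [← h', ← hq']
            exact q'.2.2
        rw [D'.ends_inr, Sym2.eq_iff] at hxy
        rcases hxy with ⟨h, h'⟩ | ⟨h, h'⟩
        · rw [← h] at hx
          exact h4 _ rfl hx
        · rw [← h'] at hx
          exact h4 _ rfl hx
    choose ee hee1 hee2 using hex
    have hinj : Function.Injective fun l : Fin (M + 1) =>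
        (⟨(ee l).1, hee2 l⟩ : {e // e ∈ D'.P.G.bd (D'.at' (τ (D.pn q)).1)}) := by
      intro l m h
      have h5 : ee l = ee m := Subtype.ext
        (congrArg (fun z : {e // e ∈ D'.P.G.bd (D'.at' (τ (D.pn q)).1)} => z.1) h)
      have h6 := hee1 m
      rw [← h5] at h6
      have h7 := I.dj (hee1 l) h6
      have h8 := Sum.inl.inj h7
      exact congrArg Prod.snd h8
    have h9 := Fintype.card_le_of_injective _ hinj
    rw [Fintype.card_fin, Fintype.card_coe] at h9
    have h10 : (D'.P.G.bd (D'.at' (τ (D.pn q)).1)).card < M := (D'.atom _ (τ (D.pn q)).2).ord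
    omega
  -- parallel edges of image gadgets are used by the gadget
  have E1 : ∀ (p : D.PN) (q' : D'.PO) (l' : Fin (M + 1)), D'.pn q' = τ p →
      ∃ (q : D.PO) (l : Fin (M + 1)), (.inl (q', l') : D'.gad.E) ∈ I.F (.inl (q, l)) := by
    intro p q' l' hq'
    have hex : ∀ x : {e // e ∈ D.P.G.bd (D.at' p.1)} × Fin (M + 1),
        ∃ y : {e // e ∈ D'.P.G.bd (D'.at' (τ p).1)} × Fin (M + 1),
          (.inl (⟨((τ p).1, y.1.1), (τ p).2, y.1.2⟩, y.2) : D'.gad.E) ∈
            I.F (.inl (⟨(p.1, x.1.1), p.2, x.1.2⟩, x.2)) := by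
      intro x
      have h3 := hpar ⟨(p.1, x.1.1), p.2, x.1.2⟩ x.2
      obtain ⟨f, hf, u, v, huv, hu, hv⟩ := mconn_cut h3 (S := {.inl (τ p)})
        (Set.mem_singleton _) (by intro h; cases h)
      rw [Set.mem_singleton_iff] at hu
      subst hu
      rcases f with ⟨q'', l''⟩ | e'
      · rw [D'.ends_inl, Sym2.eq_iff] at huv
        have h4 : D'.pn q'' = τ p := by
          rcases huv with ⟨h, _⟩ | ⟨_, h⟩
          · exact Sum.inl.inj h
          · cases h
        have h5 : q''.1.1 = (τ p).1 := congrArg Subtype.val h4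
        have h6 : q''.1.2 ∈ D'.P.G.bd (D'.at' (τ p).1) := by
          rw [← h5]
          exact q''.2.2
        refine ⟨(⟨q''.1.2, h6⟩, l''), ?_⟩
        have h7 : (⟨((τ p).1, q''.1.2), (τ p).2, h6⟩ : D'.PO) = q'' :=
          Subtype.ext (Prod.ext h5.symm rfl)
        simp only [h7]
        exact hf
      · rw [D'.ends_inr, Sym2.eq_iff] at huv
        rcases huv with ⟨h, _⟩ | ⟨_, h⟩ <;> cases h
    choose θ hθ using hex
    have hinj : Function.Injective θ := by
      intro x y h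
      have h3 := hθ y
      rw [← h] at h3
      have h4 := Sum.inl.inj (I.dj (hθ x) h3)
      have h5 := congrArg (fun z : D.PO × Fin (M + 1) => z.1.1.2) h4
      have h6 := congrArg (fun z : D.PO × Fin (M + 1) => z.2) h4
      exact Prod.ext (Subtype.ext h5) h6
    have hcard : Nat.card ({e // e ∈ D'.P.G.bd (D'.at' (τ p).1)} × Fin (M + 1)) ≤
        Nat.card ({e // e ∈ D.P.G.bd (D.at' p.1)} × Fin (M + 1)) := by
      rw [card_port, card_port]
      have h3 : (D.en p).n = (D'.en (τ p)).n := (imm p).n_eq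
      rw [h3]
    have hbij := hinj.bijective_of_nat_card_le hcard
    have h5 : q'.1.1 = (τ p).1 := congrArg Subtype.val hq'
    have h6 : q'.1.2 ∈ D'.P.G.bd (D'.at' (τ p).1) := by
      rw [← h5]
      exact q'.2.2
    obtain ⟨x, hx⟩ := hbij.2 (⟨q'.1.2, h6⟩, l')
    have h7 := hθ x
    rw [hx] at h7
    have h8 : (⟨((τ p).1, q'.1.2), (τ p).2, h6⟩ : D'.PO) = q' :=
      Subtype.ext (Prod.ext h5.symm rfl)
    simp only [h8] at h7
    exact ⟨_, _, h7⟩
  have npar : ∀ (e : D.OE) (q' : D'.PO) (l : Fin (M + 1)) (p : D.PN), D'.pn q' = τ p →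
      (.inl (q', l) : D'.gad.E) ∉ I.F (.inr e) := by
    intro e q' l p hq' h
    obtain ⟨q, l', h'⟩ := E1 p q' l hq'
    have h3 := I.dj h h'
    cases h3
  have out : ∀ q, (.inr (D'.oe (σ q)) : D'.gad.E) ∈ I.F (.inr (D.oe q)) := by
    intro q
    have h3 : ∃ v : D'.gad.V, v ≠ .inr (σ q) ∧ MConn D'.gad (I.F (.inr (D.oe q))) (.inr (σ q)) v := by
      rcases D.port_cases q with h | h
      · refine ⟨.inr (σ (D.pb (D.oe q))), ?_, ?_⟩
        · intro h4
          have h5 := σi (Sum.inr.inj h4)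
          exact D.pa_ne_pb _ (h5.trans h).symm
        · have h4 := hout (D.oe q)
          rw [← h] at h4
          exact h4
      · refine ⟨.inr (σ (D.pa (D.oe q))), ?_, ?_⟩
        · intro h4
          have h5 := σi (Sum.inr.inj h4)
          exact D.pa_ne_pb _ (h5.trans h)
        · have h4 := (hout (D.oe q)).symm'
          rw [← h] at h4
          exact h4
    obtain ⟨v, hv, hc⟩ := h3
    obtain ⟨f, hf, x, y, hxy, hx, hy⟩ := mconn_cut hc (S := {.inr (σ q)}) (Set.mem_singleton _) hv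
    rw [Set.mem_singleton_iff] at hx
    subst hx
    rcases f with ⟨q', l'⟩ | e'
    · exfalso
      rw [D'.ends_inl, Sym2.eq_iff] at hxy
      have h4 : q' = σ q := by
        rcases hxy with ⟨h, _⟩ | ⟨_, h⟩
        · cases h
        · exact Sum.inr.inj h
      subst h4
      exact npar (D.oe q) (σ q) l' (D.pn q) (σp q) hf
    · rw [D'.ends_inr, Sym2.eq_iff] at hxy
      have h4 : D'.oe (σ q) = e' := by
        rcases hxy with ⟨h, _⟩ | ⟨_, h⟩
        · rw [← Sum.inr.inj h, D'.oe_pa]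
        · rw [← Sum.inr.inj h, D'.oe_pb]
      rw [h4]
      exact hf
  exact ⟨{
    τ := τ
    τi := τi
    σ := σ
    σi := σi
    σp := σp
    σx := fun q => (hidx q).symm
    η := η
    Φ := Φ
    imm := imm
    H := fun e => I.F (.inr e)
    conn := hout
    dj := fun e f g he hf => Sum.inr.inj (I.dj he hf)
    npar := npar
    out := out }⟩

/-- **Theorem I without tree-width**, from the labelled weak immersion theorem. -/
theorem thin_pwo (hL : LabelledWeakWQO) {W : Set (Pc (Lb Ω))} (hW : W.PartiallyWellOrderedOn Rp)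
    (M : ℕ) :
    {P : CG Ω | Cls P ∧ ∃ pt : ℕ → ℕ, ∀ x ∈ P.X, Atom W M P.G (fib P.X pt (pt x))}.PartiallyWellOrderedOn
      CR := by
  rw [partiallyWellOrderedOn_iff_exists_lt]
  intro f hf
  have hD : ∀ n, ∃ D : AtG W M, D.P = f n := by
    intro n
    obtain ⟨hc, pt, hpt⟩ := hf n
    refine ⟨⟨f n, pt, hc, ?_⟩, rfl⟩
    intro p hp
    obtain ⟨x, hx, rfl⟩ := Finset.mem_image.1 hp
    exact hpt x hx
  choose D hDf using hD
  obtain ⟨i, j, hij, I, hI⟩ := hL (AtG.Om W M) (AtG.Le W M) (AtG.le_wqo hW M) ((M + 1) * (M + 2))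
    (fun n => (D n).gad) (fun n => (D n).lb) (fun n => (D n).gad_deg)
  obtain ⟨S⟩ := exists_dec I hI
  refine ⟨i, j, hij, ?_⟩
  rw [← hDf i, ← hDf j]
  exact S.cr

end Pool.Agent.W2411wi
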