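import Mathlib
import Pool.Agent.W_2411wi_h30.WeakDef
import Pool.Agent.W_2411cw_h59.KK

/-! The labelled strong immersion theorem and its two easy consequences. -/

set_option autoImplicit false

namespace Pool.Agent.W2411wi

open Pool.Agent.W2411c4 Pool.Agent.W2411cw

/-- The labelled strong immersion theorem: if `r` is a well-quasi-order of the set `Ω` of labels, then
the graphs with vertices labelled by `Ω` in which `KK t` is not strongly immersed are
well-quasi-ordered by strong immersions that do not decrease labels. -/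
def LabelledStrongWQO : Prop :=
  ∀ (Ω : Type) (r : Ω → Ω → Prop), IsWqo r → ∀ (t : ℕ) (G : ℕ → MGraph) (φ : ∀ n, (G n).V → Ω),
    (∀ n, ¬ Nonempty (StrongImmersion (KK t) (G n))) →
      ∃ i j, i < j ∧ ∃ I : StrongImmersion (G i) (G j), ∀ v, r (φ i v) (φ j (I.η v))

/-- the unlabelled theorem for all graphs -/
theorem strong_of_ls (h : LabelledStrongWQO) (G : ℕ → MGraph) :
    ∃ i j, i < j ∧ Nonempty (StrongImmersion (G i) (G j)) := by
  by_contra hcon
  push Not at hcon
  have hno : ∀ n, ¬ Nonempty (StrongImmersion (KK (Nat.card (G 0).V + Nat.card (G 0).E)) (G (n + 1))) := by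
    intro n hn
    obtain ⟨I⟩ := si_of_KK (H := G 0) (by omega) (by omega) hn
    exact (hcon 0 (n + 1) (by omega)).false I
  obtain ⟨i, j, hij, I, _⟩ := h Unit (fun _ _ => True)
    ⟨fun _ => trivial, fun _ _ _ _ _ => trivial, fun _ => ⟨0, 1, by omega, trivial⟩⟩
    (Nat.card (G 0).V + Nat.card (G 0).E) (fun n => G (n + 1)) (fun _ _ => ()) hno
  exact (hcon (i + 1) (j + 1) (by omega)).false I

/-- a strong immersion is a weak immersion -/
def weakOfStrong {H G : MGraph} (I : StrongImmersion H G) : WeakImmersion H G where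
  η := I.η
  inj := I.inj
  src := I.src
  dst := I.dst
  path := I.path
  ends_eq := I.ends_eq
  isPath := I.isPath
  disj := I.disj

theorem walk_first {G : MGraph} : ∀ {u v : G.V} (p : Walk G u v), u ≠ v → ∃ f ∈ p.edges, u ∈ G.ends f
  | _, _, Walk.nil _, h => absurd rfl h
  | _, _, Walk.cons e he _, _ => ⟨e, by simp [Walk.edges], by rw [he]; exact Sym2.mem_mk_left _ _⟩

theorem walk_last {G : MGraph} : ∀ {u v : G.V} (p : Walk G u v), u ≠ v → ∃ f ∈ p.edges, v ∈ G.ends f
  | _, _, Walk.nil _, h => absurd rfl h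
  | u, v, @Walk.cons _ _ w _ e he p, h => by
      by_cases hw : w = v
      · subst hw
        exact ⟨e, by simp [Walk.edges], by rw [he]; exact Sym2.mem_mk_right _ _⟩
      · obtain ⟨f, hf, h'⟩ := walk_last p hw
        exact ⟨f, by simp [Walk.edges, hf], h'⟩

/-- graphs of bounded degree do not contain a large complete graph -/
theorem no_KK {D : ℕ} {G : MGraph} (hD : MaxDegreeLE D G) :
    ¬ Nonempty (StrongImmersion (KK (D + 2)) G) := by
  classical
  rintro ⟨I⟩
  have hfin := G.finE
  -- the edges between the vertices `0` and `1`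
  have h01 : (0 : Fin (D + 2)) < 1 := by
    rw [Fin.lt_def]
    simp
  let e : Fin (D + 2) → (KK (D + 2)).E := fun l => (⟨(0, 1), h01⟩, l)
  have hex : ∀ l, ∃ f ∈ (I.path (e l)).edges, I.η (0 : Fin (D + 2)) ∈ G.ends f := by
    intro l
    have h1 := I.ends_eq (e l)
    have h2 : (Sym2.map I.η ((KK (D + 2)).ends (e l))) = s(I.η (0 : Fin (D + 2)), I.η (1 : Fin (D + 2))) := rfl
    rw [h2, Sym2.eq_iff] at h1
    have hne : I.η (0 : Fin (D + 2)) ≠ I.η (1 : Fin (D + 2)) := fun h => h01.ne (I.inj h)
    rcases h1 with ⟨h3, h4⟩ | ⟨h3, h4⟩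
    · obtain ⟨f, hf, h5⟩ := walk_first (I.path (e l)) (by rw [h3, h4]; exact hne)
      exact ⟨f, hf, h3 ▸ h5⟩
    · obtain ⟨f, hf, h5⟩ := walk_last (I.path (e l)) (by rw [h3, h4]; exact hne.symm)
      exact ⟨f, hf, h4 ▸ h5⟩
  choose f hf hf' using hex
  have hinj : Function.Injective f := by
    intro l l' h
    by_contra hne
    refine I.disj (e l) (e l') ?_ (f l) (hf l) ?_
    · intro h'
      exact hne (congrArg Prod.snd h')
    · rw [h]
      exact hf l'
  have h1 : (Set.univ : Set (Fin (D + 2))).ncard ≤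
      {g | I.η (0 : Fin (D + 2)) ∈ G.ends g}.ncard :=
    Set.ncard_le_ncard_of_injOn f (fun l _ => hf' l) hinj.injOn (Set.toFinite _)
  rw [Set.ncard_univ, Nat.card_eq_fintype_card, Fintype.card_fin] at h1
  have h2 := hD (I.η (0 : Fin (D + 2)))
  omega

/-- the labelled strong theorem contains the labelled weak theorem for bounded degree -/
theorem lw_of_ls (h : LabelledStrongWQO) : LabelledWeakWQO := by
  intro Ω r hr D G φ hD
  obtain ⟨i, j, hij, I, hI⟩ := h Ω r hr (D + 2) G φ fun n => no_KK (hD n)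
  exact ⟨i, j, hij, weakOfStrong I, hI⟩

end Pool.Agent.W2411wi
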